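import Pool.Agent.H90.CNY.Stmts

set_option autoImplicit false

namespace Pool.CND

theorem ylm_thm : S_YLM := by
  intro p n r a b c z z' hp hn h1 h2
  have hc : IsCoprime (n : ℤ) ((p ^ b : ℕ) : ℤ) := by
    rw [Nat.isCoprime_iff_coprime]
    exact Nat.Coprime.pow_right b ((Nat.Prime.coprime_iff_not_dvd hp).mpr hn).symm
  obtain ⟨u, v, huv⟩ := hc
  refine ⟨u * (r * z) + v * ((p ^ a : ℕ) * z'), ?_⟩
  have huv' : (u : ℚ) * n + v * (p : ℚ) ^ b = 1 := by exact_mod_cast huv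
  push_cast at h1 h2 ⊢
  rw [← h1, ← h2]
  linear_combination -((p : ℚ) ^ a * r * c) * huv'

end Pool.CND
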